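import Pool.Agent.Helper19_RFK.Stmts

set_option autoImplicit false

open MeasureTheory Set

namespace Pool.Agent.RFK.H25.Low

theorem adm_hcs {L : NNReal} {ρ : ℝ} {g : ℂ → ℝ} (h : Adm L ρ g) : HasCompactSupport g := by
  refine HasCompactSupport.intro (isCompact_closedBall (0 : ℂ) ρ) ?_
  intro x hx
  apply h.supp
  rw [Metric.mem_closedBall, dist_zero_right, not_le] at hx
  exact hx.le

theorem continuous_lap (r : ℝ) (p : ℂ → ℝ) (hp : Continuous p) : Continuous (lap r p) := by
  have h1 : Continuous (fun x : ℂ => ∫ h in Metric.closedBall (0 : ℂ) r, (p (x + h) - p x)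
      ∂(volume.restrict (Metric.ball (0 : ℂ) r))) := by
    apply continuous_parametric_integral_of_continuous
    · fun_prop
    · exact isCompact_closedBall _ _
  have h2 : (lap r p) = (fun x : ℂ => ∫ h in Metric.closedBall (0 : ℂ) r, (p (x + h) - p x)
      ∂(volume.restrict (Metric.ball (0 : ℂ) r))) := by
    funext x
    unfold lap
    rw [Measure.restrict_restrict measurableSet_closedBall,
      inter_eq_self_of_subset_right Metric.ball_subset_closedBall]
  rw [h2]
  exact h1

theorem integrable_mul_lap {L : NNReal} {ρ : ℝ} {g : ℂ → ℝ} (h : Adm L ρ g) (r : ℝ)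
    (p : ℂ → ℝ) (hp : Continuous p) : Integrable (fun x => g x * lap r p x) := by
  have h1 := h.lip.continuous
  have h2 := continuous_lap r p hp
  refine (h1.mul h2).integrable_of_hasCompactSupport ?_
  exact (adm_hcs h).mul_right

theorem integrableOn_diff (r : ℝ) (p : ℂ → ℝ) (hp : Continuous p) (x : ℂ) :
    IntegrableOn (fun h => p (x + h) - p x) (Metric.ball (0 : ℂ) r) := by
  have h1 : Continuous (fun h => p (x + h) - p x) := by fun_prop
  exact (h1.continuousOn.integrableOn_compact (isCompact_closedBall (0 : ℂ) r)).mono_set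
    Metric.ball_subset_closedBall

theorem integrableOn_cont (E : Set ℂ) (hb : Bornology.IsBounded E) (p : ℂ → ℝ)
    (hp : Continuous p) : IntegrableOn p E := by
  obtain ⟨R, hR⟩ := hb.subset_closedBall (0 : ℂ)
  exact (hp.continuousOn.integrableOn_compact (isCompact_closedBall (0 : ℂ) R)).mono_set hR

theorem low (hQ : QkpStmt) (hR : RegStmt) (hC : CnvStmt) (hF : FormStmt) : LowStmt := by
  intro E ν c Λ l L L' ρ ρ' g hE hb hν hc hΛ hl heq hν1 hz0 hzE hzρ hγ hg r hr hr1
  set z := pot E ν with hz
  set γ : ℂ → ℝ := fun x => max (l - z x) 0 with hγd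
  have hzc : Continuous z := hR E ν hE hb hν
  have hNr : 0 < Nr r := (hQ r hr).2.2.2.2.2
  have hν0 : ∀ᵐ x ∂(volume.restrict E), 0 ≤ ν x := by
    filter_upwards [heq] with x hx
    have h1 := hz0 x
    rw [← hx] at h1
    exact nonneg_of_mul_nonneg_right h1 hc
  have hgc : Continuous g := hg.lip.continuous
  have hγc : Continuous γ := hγ.lip.continuous
  have hfin : IsFiniteMeasure (volume.restrict E) := by
    rw [isFiniteMeasure_restrict]
    exact hb.measure_lt_top.ne
  -- FORM
  set β := Λ / l with hβ
  have hβ0 : 0 < β := div_pos hΛ hl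
  have form := (hF L L' ρ ρ' g γ hg hγ r hr).1 β
  -- CNV
  have cg := hC E ν L ρ g hE hb hν hg hν0 r hr
  have cγ := hC E ν L' ρ' γ hE hb hν hγ hν0 r hr
  rw [hν1, mul_one, ← hz] at cg cγ
  -- ener g γ
  have e1 : ener r g γ = ∫ x, g x * lap r z x := by
    unfold ener
    rw [← integral_neg]
    congr 1
    funext x
    by_cases hgx : g x = 0
    · rw [hgx]; ring
    have hxρ : ‖x‖ < ρ := by
      by_contra hcon
      exact hgx (hg.supp x (not_lt.1 hcon))
    have h1 : lap r γ x = - lap r z x := by
      unfold lap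
      rw [← integral_neg]
      apply setIntegral_congr_fun measurableSet_ball
      intro h hh
      simp only
      have hh' : ‖h‖ < r := by simpa using hh
      have h2 : ‖x + h‖ < ρ + 1 := (norm_add_le _ _).trans_lt (by linarith)
      have h3 := hzρ (x + h) h2
      have h4 := hzρ x (by linarith)
      simp only [hγd]
      rw [max_eq_left (by linarith), max_eq_left (by linarith)]
      ring
    rw [h1]
    ring
  -- ener γ γ
  have e2 : ener r γ γ ≤ ∫ x, γ x * lap r z x := by
    unfold ener
    rw [← integral_neg]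
    apply integral_mono (integrable_mul_lap hγ r γ hγc).neg (integrable_mul_lap hγ r z hzc)
    intro x
    change - (γ x * lap r γ x) ≤ γ x * lap r z x
    by_cases hgx : γ x = 0
    · rw [hgx]; simp
    have hpos : 0 < γ x := lt_of_le_of_ne (hγ.nonneg x) (Ne.symm hgx)
    have hγx : γ x = l - z x := by
      simp only [hγd] at hpos ⊢
      rcases le_total (l - z x) 0 with h | h
      · rw [max_eq_right h] at hpos
        exact absurd hpos (lt_irrefl _)
      · exact max_eq_left h
    have h1 : - lap r z x ≤ lap r γ x := by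
      unfold lap
      rw [← integral_neg]
      apply setIntegral_mono_on (integrableOn_diff r z hzc x).neg
        (integrableOn_diff r γ hγc x) measurableSet_ball
      intro h hh
      rw [hγx]
      change - (z (x + h) - z x) ≤ γ (x + h) - (l - z x)
      have : l - z (x + h) ≤ γ (x + h) := le_max_left _ _
      linarith
    have h2 := mul_le_mul_of_nonneg_left h1 hpos.le
    linarith
  -- integrability
  have hνi : IntegrableOn ν E := hν.integrable one_le_two
  have hν2 : IntegrableOn (fun x => ν x ^ 2) E := hν.integrable_sq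
  have hνg : IntegrableOn (fun x => ν x * g x) E := by
    have hg2 : MemLp g 2 (volume.restrict E) := by
      rw [memLp_two_iff_integrable_sq hgc.aestronglyMeasurable]
      exact integrableOn_cont E hb _ (hgc.pow 2)
    exact hν.integrable_mul hg2
  have hΛg : IntegrableOn (fun x => (Λ - g x) ^ 2) E :=
    integrableOn_cont E hb _ ((continuous_const.sub hgc).pow 2)
  -- ∫ ν γ
  have e3 : ∫ x in E, ν x * γ x = l - c * ∫ x in E, ν x ^ 2 := by
    have h1 : ∫ x in E, ν x * γ x = ∫ x in E, (l * ν x - c * ν x ^ 2) := by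
      apply integral_congr_ae
      filter_upwards [heq, ae_restrict_mem hE] with x hx hxE
      have h2 := hzE x hxE
      simp only [hγd]
      rw [max_eq_left (by linarith), ← hx]
      ring
    rw [h1, integral_sub (hνi.const_mul l) (hν2.const_mul c), integral_const_mul,
      integral_const_mul, hν1, mul_one]
  -- lower bound of ∫ (Λ - g)^2
  have e4 : 2 * β * Λ - 2 * β * (∫ x in E, ν x * g x) - β ^ 2 * c * (∫ x in E, ν x ^ 2) ≤
      1 / c * ∫ x in E, (Λ - g x) ^ 2 := by
    have h1 : ∫ x in E, ((2 * β * Λ) * ν x - (2 * β) * (ν x * g x) - (β ^ 2 * c) * ν x ^ 2) ≤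
        ∫ x in E, 1 / c * (Λ - g x) ^ 2 := by
      apply integral_mono
      · exact ((hνi.const_mul _).sub (hνg.const_mul _)).sub (hν2.const_mul _)
      · exact hΛg.const_mul _
      · intro x
        simp only
        have h2 : 0 ≤ (Λ - g x - β * c * ν x) ^ 2 := sq_nonneg _
        have h3 : 1 / c * (Λ - g x) ^ 2 - ((2 * β * Λ) * ν x - (2 * β) * (ν x * g x) -
            (β ^ 2 * c) * ν x ^ 2) = 1 / c * (Λ - g x - β * c * ν x) ^ 2 := by
          field_simp
          ring
        have h4 : 0 ≤ 1 / c * (Λ - g x - β * c * ν x) ^ 2 :=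
          mul_nonneg (by positivity) h2
        linarith
    rw [integral_const_mul] at h1
    refine le_trans (le_of_eq ?_) h1
    have h5 : ∫ x in E, ((2 * β * Λ) * ν x - (2 * β) * (ν x * g x) - (β ^ 2 * c) * ν x ^ 2) =
        (∫ x in E, ((2 * β * Λ) * ν x - (2 * β) * (ν x * g x))) -
          ∫ x in E, (β ^ 2 * c) * ν x ^ 2 :=
      integral_sub ((hνi.const_mul _).sub (hνg.const_mul _)) (hν2.const_mul _)
    have h6 : ∫ x in E, ((2 * β * Λ) * ν x - (2 * β) * (ν x * g x)) =
        (∫ x in E, (2 * β * Λ) * ν x) - ∫ x in E, (2 * β) * (ν x * g x) :=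
      integral_sub (hνi.const_mul _) (hνg.const_mul _)
    rw [h5, h6, integral_const_mul, integral_const_mul, integral_const_mul, hν1, mul_one]
  -- assemble
  have cg' := (abs_le.1 cg).1
  have cγ' := (abs_le.1 cγ).2
  rw [e1] at form
  have s1 : 2 * β * (Nr r * (∫ x in E, ν x * g x) - Nr r * (L * r)) ≤
      2 * β * ∫ x, g x * lap r z x :=
    mul_le_mul_of_nonneg_left (by linarith) (by positivity)
  have s2 : β ^ 2 * ener r γ γ ≤
      β ^ 2 * (Nr r * (l - c * ∫ x in E, ν x ^ 2) + Nr r * (L' * r)) := by
    apply mul_le_mul_of_nonneg_left _ (by positivity)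
    rw [← e3]
    linarith
  have s3 := mul_le_mul_of_nonneg_left e4 hNr.le
  have s4 : Λ ^ 2 / l = 2 * β * Λ - β ^ 2 * l := by
    rw [hβ]
    field_simp
    ring
  have s5 : Nr r / c * (∫ x in E, (Λ - g x) ^ 2) = Nr r * (1 / c * ∫ x in E, (Λ - g x) ^ 2) := by
    ring
  rw [s4, s5]
  nlinarith [s1, s2, s3, form]

end Pool.Agent.RFK.H25.Low
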