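import Pool.Agent.Helper19_RFK.Stmts

set_option autoImplicit false

open MeasureTheory Set

namespace Pool.Agent.RFK.H25

theorem inner_refl (e : ℂ) (s : ℝ) (he : ‖e‖ = 1) (x : ℂ) :
    inner ℝ e (refl e s x) = 2 * s - inner ℝ e x := by
  unfold refl
  rw [inner_sub_right, inner_smul_right, real_inner_self_eq_norm_sq, he]
  ring

theorem refl_refl (e : ℂ) (s : ℝ) (he : ‖e‖ = 1) (x : ℂ) : refl e s (refl e s x) = x := by
  have h := inner_refl e s he x
  unfold refl at h ⊢
  rw [h]
  rw [sub_sub, ← add_smul]
  have : 2 * (inner ℝ e x - s) + 2 * (2 * s - inner ℝ e x - s) = 0 := by ring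
  rw [this, zero_smul, sub_zero]

theorem norm_refl_sq (e : ℂ) (s : ℝ) (he : ‖e‖ = 1) (x : ℂ) :
    ‖refl e s x‖ ^ 2 = ‖x‖ ^ 2 + 4 * s * (s - inner ℝ e x) := by
  unfold refl
  rw [norm_sub_sq_real, inner_smul_right, norm_smul, he, real_inner_comm]
  rw [Real.norm_eq_abs, mul_one, sq_abs]
  ring

theorem continuous_refl (e : ℂ) (s : ℝ) : Continuous (refl e s) := by
  unfold refl
  fun_prop

noncomputable def reflHomeo (e : ℂ) (s : ℝ) (he : ‖e‖ = 1) : ℂ ≃ₜ ℂ where
  toFun := refl e s
  invFun := refl e s
  left_inv := refl_refl e s he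
  right_inv := refl_refl e s he
  continuous_toFun := continuous_refl e s
  continuous_invFun := continuous_refl e s

theorem measurePreserving_refl (e : ℂ) (s : ℝ) (he : ‖e‖ = 1) :
    MeasurePreserving (refl e s) := by
  have h1 : MeasurePreserving (fun x : ℂ => (Submodule.reflection (Submodule.span ℝ {e})) x) :=
    LinearIsometryEquiv.measurePreserving _
  have h2 : MeasurePreserving (fun x : ℂ => -x) := Measure.measurePreserving_neg volume
  have h3 : MeasurePreserving (fun x : ℂ => x + (2 * s : ℝ) • e) :=
    measurePreserving_add_right volume _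
  have h4 := (h3.comp h2).comp h1
  convert h4 using 1
  funext x
  simp only [Function.comp]
  rw [Submodule.reflection_singleton_apply]
  unfold refl
  rw [he]
  simp only [Complex.real_smul, nsmul_eq_mul, RCLike.ofReal_real_eq_id, id]
  push_cast
  ring

theorem integral_refl (e : ℂ) (s : ℝ) (he : ‖e‖ = 1) (f : ℂ → ℝ) :
    ∫ x, f (refl e s x) = ∫ x, f x :=
  (measurePreserving_refl e s he).integral_comp (reflHomeo e s he).measurableEmbedding f

theorem Adm.continuous {L : NNReal} {ρ : ℝ} {g : ℂ → ℝ} (h : Adm L ρ g) : Continuous g :=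
  h.lip.continuous

theorem Adm.integrable {L : NNReal} {ρ : ℝ} {g : ℂ → ℝ} (h : Adm L ρ g) : Integrable g := by
  refine h.lip.continuous.integrable_of_hasCompactSupport ?_
  refine HasCompactSupport.intro (isCompact_closedBall (0 : ℂ) ρ) ?_
  intro x hx
  apply h.supp
  rw [Metric.mem_closedBall, dist_zero_right, not_le] at hx
  exact hx.le

theorem measurable_polar (e : ℂ) (s : ℝ) (g : ℂ → ℝ) (hg : Continuous g) :
    Measurable (polar e s g) := by
  unfold polar
  have hm : MeasurableSet {x : ℂ | inner ℝ e x ≤ s} := by
    apply IsClosed.measurableSet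
    apply isClosed_le <;> fun_prop
  have h2 := continuous_refl e s
  refine Measurable.ite hm ?_ ?_
  · exact (hg.max (hg.comp h2)).measurable
  · exact (hg.min (hg.comp h2)).measurable

theorem integrable_polar {e : ℂ} {s : ℝ} (he : ‖e‖ = 1) {L : NNReal} {ρ : ℝ} {g : ℂ → ℝ}
    (h : Adm L ρ g) : Integrable (polar e s g) := by
  have h1 := Adm.integrable h
  have h2 : Integrable (fun x => g (refl e s x)) :=
    ((measurePreserving_refl e s he).integrable_comp_emb
      (reflHomeo e s he).measurableEmbedding).2 h1
  refine Integrable.mono' (h1.add h2) (measurable_polar e s g h.lip.continuous).aestronglyMeasurable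
    (Filter.Eventually.of_forall fun x => ?_)
  have a := h.nonneg x
  have b := h.nonneg (refl e s x)
  simp only [Pi.add_apply]
  unfold polar
  split_ifs
  · rw [Real.norm_eq_abs, abs_of_nonneg (le_max_of_le_left a)]
    exact max_le (by linarith) (by linarith)
  · rw [Real.norm_eq_abs, abs_of_nonneg (le_min a b)]
    exact (min_le_left _ _).trans (by linarith)

theorem continuous_wt : Continuous wt := by
  unfold wt
  fun_prop

theorem wt_pos (x : ℂ) : 0 < wt x := Real.exp_pos _

theorem wt_le_one (x : ℂ) : wt x ≤ 1 := by
  unfold wt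
  rw [Real.exp_le_one_iff]
  have := sq_nonneg ‖x‖
  linarith

theorem wt_refl_lt (e : ℂ) (s : ℝ) (he : ‖e‖ = 1) (hs : 0 < s) (x : ℂ) (hx : inner ℝ e x < s) :
    wt (refl e s x) < wt x := by
  unfold wt
  rw [Real.exp_lt_exp, norm_refl_sq e s he]
  have : 0 < 4 * s * (s - inner ℝ e x) := mul_pos (by linarith) (by linarith)
  linarith

theorem polw : PolwStmt := by
  intro e s L ρ g he hs hg hle
  have hwi : ∀ f : ℂ → ℝ, Integrable f → Integrable (fun x => f x * wt x) := by
    intro f hf
    refine hf.mul_bdd (c := 1) continuous_wt.aestronglyMeasurable ?_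
    refine Filter.Eventually.of_forall fun x => ?_
    rw [Real.norm_eq_abs, abs_of_pos (wt_pos x)]
    exact wt_le_one x
  have hgi := Adm.integrable hg
  have hpi : Integrable (polar e s g) := integrable_polar he hg
  -- the difference
  set D : ℂ → ℝ := fun x => polar e s g x - g x with hD
  have hDi : Integrable (fun x => D x * wt x) := hwi _ (hpi.sub hgi)
  have hDle : ∫ x, D x * wt x ≤ 0 := by
    have : ∫ x, D x * wt x = (∫ x, polar e s g x * wt x) - ∫ x, g x * wt x := by
      rw [← integral_sub (hwi _ hpi) (hwi _ hgi)]
      congr 1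
      funext x
      simp only [hD]
      ring
    linarith
  set F : ℂ → ℝ := fun x => D x * wt x + D (refl e s x) * wt (refl e s x) with hF
  have hDi' : Integrable (fun x => D (refl e s x) * wt (refl e s x)) :=
    ((measurePreserving_refl e s he).integrable_comp_emb
      (reflHomeo e s he).measurableEmbedding).2 hDi
  have hFi : Integrable F := hDi.add hDi'
  have hFle : ∫ x, F x ≤ 0 := by
    have h1 : ∫ x, F x = (∫ x, D x * wt x) + ∫ x, D (refl e s x) * wt (refl e s x) :=
      integral_add hDi hDi'
    have h2 : ∫ x, D (refl e s x) * wt (refl e s x) = ∫ x, D x * wt x :=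
      integral_refl e s he (fun x => D x * wt x)
    rw [h1, h2]
    linarith
  -- values of D
  have hDin : ∀ x, inner ℝ e x < s → D x = max (g (refl e s x) - g x) 0 ∧
      D (refl e s x) = - max (g (refl e s x) - g x) 0 := by
    intro x hx
    have h1 : ¬ (inner ℝ e (refl e s x) ≤ s) := by
      rw [inner_refl e s he]
      linarith
    constructor
    · simp only [hD, polar, if_pos hx.le]
      rcases le_total (g x) (g (refl e s x)) with h | h
      · rw [max_eq_right h, max_eq_left (by linarith)]
      · rw [max_eq_left h, max_eq_right (by linarith)]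
        ring
    · simp only [hD, polar, if_neg h1, refl_refl e s he]
      rcases le_total (g x) (g (refl e s x)) with h | h
      · rw [min_eq_right h, max_eq_left (by linarith)]
        ring
      · rw [min_eq_left h, max_eq_right (by linarith)]
        ring
  have hFin : ∀ x, inner ℝ e x < s →
      F x = max (g (refl e s x) - g x) 0 * (wt x - wt (refl e s x)) := by
    intro x hx
    obtain ⟨h1, h2⟩ := hDin x hx
    simp only [hF]
    rw [h1, h2]
    ring
  have hFsymm : ∀ x, F (refl e s x) = F x := by
    intro x
    simp only [hF, refl_refl e s he]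
    ring
  have hFnn_in : ∀ x, inner ℝ e x < s → 0 ≤ F x := by
    intro x hx
    rw [hFin x hx]
    exact mul_nonneg (le_max_right _ _) (sub_nonneg.2 (wt_refl_lt e s he hs x hx).le)
  have hline : ∀ x, inner ℝ e x = s → refl e s x = x := by
    intro x hx
    unfold refl
    rw [hx, sub_self, mul_zero, zero_smul, sub_zero]
  have hFnn : ∀ x, 0 ≤ F x := by
    intro x
    rcases lt_trichotomy (inner ℝ e x) s with h | h | h
    · exact hFnn_in x h
    · have h1 : D x = 0 := by
        simp only [hD, polar, if_pos h.le, hline x h, max_self, sub_self]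
      simp only [hF, hline x h, h1]
      simp
    · rw [← hFsymm]
      apply hFnn_in
      rw [inner_refl e s he]
      linarith
  have hF0 : F =ᵐ[volume] 0 := by
    rw [← integral_eq_zero_iff_of_nonneg hFnn hFi]
    exact le_antisymm hFle (integral_nonneg hFnn)
  -- in the interior
  have hkey : ∀ x, inner ℝ e x < s → g (refl e s x) ≤ g x := by
    intro x hx
    by_contra hcon
    rw [not_le] at hcon
    set U : Set ℂ := {y | inner ℝ e y < s} ∩ {y | g y < g (refl e s y)} with hU
    have hUo : IsOpen U := by
      apply IsOpen.inter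
      · apply isOpen_lt <;> fun_prop
      · exact isOpen_lt hg.lip.continuous (hg.lip.continuous.comp (continuous_refl e s))
    have hUpos : 0 < volume U := hUo.measure_pos volume ⟨x, hx, hcon⟩
    have hU0 : volume U = 0 := by
      refine measure_mono_null ?_ hF0
      intro y hy
      obtain ⟨hy1, hy2⟩ := hy
      change inner ℝ e y < s at hy1
      change g y < g (refl e s y) at hy2
      have h1 := hFin y hy1
      have h2 := wt_refl_lt e s he hs y hy1
      have h3 : 0 < F y := by
        rw [h1]
        apply mul_pos
        · exact lt_max_of_lt_left (by linarith)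
        · linarith
      exact fun h => (ne_of_gt h3) h
    exact (ne_of_gt hUpos) hU0
  funext x
  rcases lt_trichotomy (inner ℝ e x) s with h | h | h
  · unfold polar
    rw [if_pos h.le, max_eq_left (hkey x h)]
  · unfold polar
    rw [if_pos h.le, hline x h, max_self]
  · unfold polar
    rw [if_neg (not_le.2 h)]
    have h1 := hkey (refl e s x) (by rw [inner_refl e s he]; linarith)
    rw [refl_refl e s he] at h1
    exact min_eq_left h1

end Pool.Agent.RFK.H25
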